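import Pool.Agent.N206.CG.Final
import Pool.Agent.N519.CG.F7

set_option autoImplicit false

/-!
A finitely generated group with finite outer automorphism group whose characteristic and normal
subgroup growth functions have no common growth type.
-/

namespace Pool.Agent.Results.MP_216434_al.GrowthTypesDiffer

/-- the outer automorphism group: automorphisms modulo conjugations -/
abbrev Out (G : Type) [Group G] := MulAut G ⧸ (MulAut.conj : G →* MulAut G).range

/-- the set of normal subgroups of finite index at most `n` -/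
def normalSubgroups (G : Type) [Group G] (n : ℕ) : Set (Subgroup G) :=
  {N | N.Normal ∧ N.index ≠ 0 ∧ N.index ≤ n}

/-- the set of characteristic subgroups of finite index at most `n` -/
def characteristicSubgroups (G : Type) [Group G] (n : ℕ) : Set (Subgroup G) :=
  {N | N.Characteristic ∧ N.index ≠ 0 ∧ N.index ≤ n}

/-- number of normal subgroups of finite index at most `n` -/
noncomputable def sNormal (G : Type) [Group G] (n : ℕ) : ℕ := (normalSubgroups G n).ncard

/-- number of characteristic subgroups of finite index at most `n` -/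
noncomputable def sCharacteristic (G : Type) [Group G] (n : ℕ) : ℕ :=
  (characteristicSubgroups G n).ncard

/-- `g` has growth type `f`: `g n ≤ f n ^ a` for all `n ≥ 1` and `g n ≥ f n ^ b` for infinitely many
`n`, for some `a, b > 0` -/
def HasGrowthType (g : ℕ → ℕ) (f : ℕ → ℝ) : Prop :=
  ∃ a b : ℝ, 0 < a ∧ 0 < b ∧ (∀ n, 1 ≤ n → (g n : ℝ) ≤ f n ^ a) ∧
    {n : ℕ | f n ^ b ≤ (g n : ℝ)}.Infinite

/-- the answer to the question is no -/
theorem result : ∃ (Γ : Type) (_ : Group Γ), Group.FG Γ ∧ Finite (Out Γ) ∧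
    (∀ n, (normalSubgroups Γ n).Finite ∧ (characteristicSubgroups Γ n).Finite) ∧
    ¬ ∃ f : ℕ → ℝ, (∀ n, 0 ≤ f n) ∧ HasGrowthType (sCharacteristic Γ) f ∧
      HasGrowthType (sNormal Γ) f := by
  obtain ⟨Γ, iΓ, h1, h2, h3, h4⟩ := Pool.Agent.N206.CG.final_of Pool.Agent.N519.CG.t_F7
  refine ⟨Γ, iΓ, h1, h2, fun n => ⟨h3 n, (h3 n).subset ?_⟩, h4⟩
  rintro N ⟨hN, hi, hn⟩
  exact ⟨inferInstance, hi, hn⟩

end Pool.Agent.Results.MP_216434_al.GrowthTypesDiffer
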